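import Pool.Agent.Helper69.UX.StD

set_option autoImplicit false

namespace Pool.Agent.Helper42.UX

open Finset Filter Pool.Agent.Helper82.CN Pool.Agent.Helper11.PV Pool.Agent.Helper69.VX
  Pool.Agent.Helper69.UX

theorem FF_nonneg (p : ℝ) (n T R : ℕ) (κ : ℕ → ℝ) (c : ℕ) (hq : 0 < 1 - p)
    (hκ : ∀ v, 0 ≤ κ v) : 0 ≤ FF p n T R κ c := by
  unfold FF
  refine Finset.sum_nonneg fun r _ => ?_
  refine mul_nonneg ?_ ?_
  · have h1 : (0 : ℝ) ≤ 1 / (1 - p) := by positivity
    positivity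
  · refine Finset.sum_nonneg fun v _ => ?_
    refine div_nonneg ?_ (Nat.cast_nonneg _)
    exact mul_nonneg (Nat.cast_nonneg _) (hκ v)

theorem hMD1 (hFBD : StFBD) (hFAC : StFAC) (hSIZ : StSIZ) : StMD1 := by
  intro p ε hp hp2 hε hε2
  have he2 : 0 < 1 / Real.exp 2 := by positivity
  have hq : 0 < 1 - p := by linarith
  have hL : 0 < bb p := by
    unfold bb
    apply Real.log_pos
    rw [lt_div_iff₀ hq]
    linarith
  have hL2 : bb p ≤ 2 := by
    unfold bb
    rw [Real.log_le_iff_le_exp (by positivity), div_le_iff₀ hq]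
    have h1 : 1 / Real.exp 2 ≤ 1 - p := by linarith
    rw [div_le_iff₀ (Real.exp_pos 2)] at h1
    linarith
  obtain ⟨n1, hn1⟩ := hFBD p ε (ε / 8) 0 hp hp2 hε hε2 (by positivity)
  obtain ⟨n2, hn2⟩ := hSIZ p ε (1 / 4) 0 hp hp2 hε hε2 (by norm_num)
  refine ⟨min (ε * bb p / 64) (1 / 4), lt_min (by positivity) (by norm_num), min_le_right _ _,
    max n1 n2, ?_⟩
  intro n T th κ P I hn hW hκ hP hsz hPT hI hIc
  have hS := hn2 n T th (le_trans (le_max_right _ _) hn) hW
  have hF := (hn1 n T th κ (le_trans (le_max_left _ _) hn) hW hκ).1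
  have hlam : 4 ≤ Real.log n := by
    have := hS.t0
    norm_num at this
    exact this
  set lam : ℝ := Real.log n with hlamdef
  have hnpos : (0 : ℝ) < n := by
    rcases Nat.eq_zero_or_pos n with h | h
    · rw [h] at hlamdef
      simp at hlamdef
      linarith
    · exact_mod_cast h
  have hT : (T : ℝ) + 1 ≤ 3 / bb p * lam := by
    have h1 := (abs_le.1 hS.t1).2
    rw [div_mul_eq_mul_div, le_div_iff₀ hL]
    nlinarith
  have hT0 : (0 : ℝ) ≤ (T : ℝ) + 1 := by positivity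
  set e1 : ℝ := min (ε * bb p / 64) (1 / 4) with he1
  have he1a : e1 ≤ ε * bb p / 64 := min_le_left _ _
  have he1b : e1 ≤ 1 / 4 := min_le_right _ _
  have he1c : 0 < e1 := lt_min (by positivity) (by norm_num)
  have hm0 : (0 : ℝ) ≤ (I.card : ℝ) := Nat.cast_nonneg _
  have hs : ((∑ C ∈ I, C.card : ℕ) : ℝ) ≤ I.card * ((T : ℝ) + 1) := by
    have h1 : ∑ C ∈ I, C.card ≤ I.card * (T + 1) := by
      refine (Finset.sum_le_card_nsmul I _ (T + 1) fun C hC => hsz C (hI hC)).trans ?_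
      rw [smul_eq_mul]
    exact_mod_cast h1
  set s : ℝ := ((∑ C ∈ I, C.card : ℕ) : ℝ) with hsdef
  have hs0 : 0 ≤ s := Nat.cast_nonneg _
  have hY0 : 0 ≤ s / n := div_nonneg hs0 hnpos.le
  have hY1 : s / n ≤ 2 * e1 := by
    rw [div_le_iff₀ hnpos]
    calc s ≤ I.card * ((T : ℝ) + 1) := hs
      _ ≤ (e1 * P.card) * ((T : ℝ) + 1) := mul_le_mul_of_nonneg_right hIc hT0
      _ = e1 * ((P.card : ℝ) * (T + 1)) := by ring
      _ ≤ e1 * (2 * n) := mul_le_mul_of_nonneg_left hPT he1c.le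
      _ = 2 * e1 * n := by ring
  have hA : n * (s / n - ph (s / n)) ≤ ε / 8 * (I.card * lam) := by
    have h1 := (hFAC.2.1 (s / n) hY0 (by linarith)).1
    calc n * (s / n - ph (s / n)) ≤ n * (s / n) ^ 2 := mul_le_mul_of_nonneg_left h1 hnpos.le
      _ = s * (s / n) := by field_simp
      _ ≤ (I.card * ((T : ℝ) + 1)) * (2 * e1) := by
          refine mul_le_mul hs hY1 hY0 (by positivity)
      _ ≤ (I.card * (3 / bb p * lam)) * (2 * (ε * bb p / 64)) := by
          refine mul_le_mul ?_ (by linarith) (by positivity) (by positivity)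
          exact mul_le_mul_of_nonneg_left hT hm0
      _ = 3 / 32 * ε * (I.card * lam) := by field_simp; ring
      _ ≤ ε / 8 * (I.card * lam) := by
          refine mul_le_mul_of_nonneg_right ?_ (by positivity)
          linarith
  have hB : ∏ C ∈ I, FF p n T (RR ε T) κ C.card ≤ Real.exp (I.card * (lam * (-th + ε / 8))) := by
    have h1 : ∏ C ∈ I, FF p n T (RR ε T) κ C.card ≤ ∏ _C ∈ I, (n : ℝ) ^ (-th + ε / 8) := by
      refine Finset.prod_le_prod (fun C _ => FF_nonneg p n T _ κ _ hq hκ.nn) fun C hC => ?_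
      have h2 := hF C.card (hsz C (hI hC))
      rw [Nat.min_zero, Nat.cast_zero, add_zero] at h2
      exact h2
    refine h1.trans ?_
    rw [Finset.prod_const, Real.rpow_def_of_pos hnpos, ← Real.exp_nat_mul]
  calc Real.exp (n * (s / n - ph (s / n))) * ∏ C ∈ I, FF p n T (RR ε T) κ C.card
      ≤ Real.exp (ε / 8 * (I.card * lam)) * Real.exp (I.card * (lam * (-th + ε / 8))) := by
        refine mul_le_mul (Real.exp_le_exp.2 hA) hB ?_ (Real.exp_pos _).le
        exact Finset.prod_nonneg fun C _ => FF_nonneg p n T _ κ _ hq hκ.nn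
    _ = (n : ℝ) ^ ((-th + ε / 4) * I.card) := by
        rw [← Real.exp_add, Real.rpow_def_of_pos hnpos]
        congr 1
        ring

end Pool.Agent.Helper42.UX
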