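import Pool.Agent.Helper69.UX.StA

set_option autoImplicit false

namespace Pool.Agent.Helper42.UX

open Finset Filter Pool.Agent.Helper82.CN Pool.Agent.Helper11.PV Pool.Agent.Helper69.VX
  Pool.Agent.Helper69.UX

theorem exp_hv (p : ℝ) (n T : ℕ) (hq : 0 < 1 - p) (hn : (0 : ℝ) < n) :
    Real.exp (hv p n T) = (n : ℝ) ^ T / (T.factorial : ℝ) * (1 - p) ^ (T.choose 2) := by
  have hf : (0 : ℝ) < (T.factorial : ℝ) := by exact_mod_cast T.factorial_pos
  unfold hv bb
  rw [one_div, Real.log_inv]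
  have h1 : (T : ℝ) * Real.log n - Real.log (T.factorial : ℝ) -
      ((T.choose 2 : ℕ) : ℝ) * -Real.log (1 - p) =
      (T : ℝ) * Real.log n + (-Real.log (T.factorial : ℝ)) +
        ((T.choose 2 : ℕ) : ℝ) * Real.log (1 - p) := by ring
  rw [h1, Real.exp_add, Real.exp_add, Real.exp_nat_mul, Real.exp_nat_mul, Real.exp_neg,
    Real.exp_log hn, Real.exp_log hf, Real.exp_log hq, div_eq_mul_inv]

theorem Mk_le (p : ℝ) (n T : ℕ) (hq : 0 < 1 - p) (hn : (0 : ℝ) < n) :
    Mk p n T ≤ Real.exp (hv p n T) := by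
  rw [exp_hv p n T hq hn]
  unfold Mk
  exact mul_le_mul_of_nonneg_right (Nat.choose_le_pow_div T n) (pow_nonneg hq.le _)

theorem le_Mk (p : ℝ) (n T : ℕ) (hq : 0 < 1 - p) (hn : (0 : ℝ) < n) (hT : T ≤ n) (hT1 : 1 ≤ T) :
    Real.exp (hv p n T) * (1 - (T : ℝ) ^ 2 / n) ≤ Mk p n T := by
  rw [exp_hv p n T hq hn]
  unfold Mk
  have hf : (0 : ℝ) < (T.factorial : ℝ) := by exact_mod_cast T.factorial_pos
  have hT1' : (1 : ℝ) ≤ T := by exact_mod_cast hT1
  have hTn : (T : ℝ) ≤ n := by exact_mod_cast hT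
  have h1 : (n : ℝ) ^ T / (T.factorial : ℝ) * (1 - (T : ℝ) ^ 2 / n) ≤ (n.choose T : ℝ) := by
    refine le_trans ?_ (Nat.pow_le_choose T n)
    rw [div_mul_eq_mul_div]
    refine div_le_div_of_nonneg_right ?_ hf.le
    have h2 : ((n + 1 - T : ℕ) : ℝ) = (n : ℝ) * (1 + -(((T : ℝ) - 1) / n)) := by
      rw [Nat.cast_sub (by omega)]
      push_cast
      field_simp
      ring
    rw [h2, mul_pow]
    refine mul_le_mul_of_nonneg_left ?_ (pow_nonneg hn.le _)
    have h3 : ((T : ℝ) - 1) / n ≤ 1 := by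
      rw [div_le_one hn]; linarith
    have h4 := one_add_mul_le_pow (a := -(((T : ℝ) - 1) / n)) (by linarith) T
    refine le_trans ?_ h4
    have h5 : (T : ℝ) * (((T : ℝ) - 1) / n) ≤ (T : ℝ) ^ 2 / n := by
      rw [← mul_div_assoc]
      refine div_le_div_of_nonneg_right ?_ hn.le
      nlinarith
    linarith
  calc (n : ℝ) ^ T / (T.factorial : ℝ) * (1 - p) ^ (T.choose 2) * (1 - (T : ℝ) ^ 2 / n)
      = (n : ℝ) ^ T / (T.factorial : ℝ) * (1 - (T : ℝ) ^ 2 / n) * (1 - p) ^ (T.choose 2) := by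
        ring
    _ ≤ (n.choose T : ℝ) * (1 - p) ^ (T.choose 2) :=
        mul_le_mul_of_nonneg_right h1 (pow_nonneg hq.le _)

theorem hMKS (hMkb : StMkb) : StMKS := by
  intro p ε hp hp2 hε hε2
  have hq : 0 < 1 - p := by
    have h1 : 0 < 1 / Real.exp 2 := by positivity
    linarith
  have hL : 0 < bb p := by
    unfold bb
    apply Real.log_pos
    rw [lt_div_iff₀ hq]
    linarith
  obtain ⟨n1, hn1⟩ := hMkb p 2 (ε / 16) hp (by linarith) (by norm_num) (by positivity)
  set L : ℝ := bb p with hLdef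
  set A : ℝ := (4 / L) ^ 8 * 362880 * (8 / ε) ^ 9 with hA
  have hA0 : 0 ≤ A := by positivity
  set Y : ℝ := 4 + L + 16 / ε + 2 * (3 * L + |Real.log (2 / L)|) + A with hY
  have hε16 : 0 ≤ 16 / ε := by positivity
  have habs : 0 ≤ |Real.log (2 / L)| := abs_nonneg _
  obtain ⟨n2, hn2⟩ := exists_nat_ge (Real.exp Y)
  refine ⟨max (max n1 n2) 4, fun n T th hn hW => ?_⟩
  obtain ⟨hW1, hW2, hW3⟩ := hW
  have hnn1 : n1 ≤ n := le_trans (le_max_left _ _) (le_trans (le_max_left _ _) hn)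
  have hnn2 : n2 ≤ n := le_trans (le_max_right _ _) (le_trans (le_max_left _ _) hn)
  have hn4 : 4 ≤ n := le_trans (le_max_right _ _) hn
  have hn4' : (4 : ℝ) ≤ n := by exact_mod_cast hn4
  have hnpos : (0 : ℝ) < n := by linarith
  have hYn : Real.exp Y ≤ n := hn2.trans (by exact_mod_cast hnn2)
  have hyY : Y ≤ Real.log n := (Real.le_log_iff_exp_le hnpos).2 hYn
  set y : ℝ := Real.log n with hy
  have hy4 : 4 ≤ y := by linarith
  have hyL : L ≤ y := by linarith
  have hyE : 16 / ε ≤ y := by linarith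
  have hyA : A ≤ y := by linarith
  have hyB : 2 * (3 * L + |Real.log (2 / L)|) ≤ y := by linarith
  have hy0 : 0 < y := by linarith
  have hal : a0 p n = 2 * y / L - 2 * Real.log (y / L) / L + 2 * (1 - Real.log 2) / L + 1 := rfl
  have hl2 : Real.log 2 ≤ 1 := by
    have := Real.log_two_lt_d9
    linarith
  have hl2' : 0 ≤ Real.log 2 := Real.log_nonneg (by norm_num)
  -- upper bound for `T`
  have hTup : (T : ℝ) ≤ 4 / L * y := by
    have h1 : 0 ≤ 2 * Real.log (y / L) / L := by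
      have : 0 ≤ Real.log (y / L) := Real.log_nonneg (by rw [le_div_iff₀ hL]; linarith)
      positivity
    have h2 : 2 * (1 - Real.log 2) / L ≤ 2 / L := by
      refine div_le_div_of_nonneg_right ?_ hL.le
      linarith
    have h3 : 2 / L ≤ 2 * y / L := by
      refine div_le_div_of_nonneg_right ?_ hL.le
      linarith
    have h4 : 4 / L * y = 2 * y / L + 2 * y / L := by ring
    linarith
  -- lower bound for `T`
  have hTlow : (4 : ℝ) ≤ T := by
    have h1 : Real.log (y / L) ≤ Real.log (2 / L) + (y / 2 - 1) := by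
      have h2 : y / L = 2 / L * (y / 2) := by field_simp
      rw [h2, Real.log_mul (by positivity) (by positivity)]
      have h3 := Real.log_le_sub_one_of_pos (x := y / 2) (by positivity)
      linarith
    have h4 : Real.log (2 / L) ≤ |Real.log (2 / L)| := le_abs_self _
    have h5 : 6 * L ≤ 2 * y - 2 * Real.log (y / L) := by linarith
    have h6 : 6 ≤ 2 * y / L - 2 * Real.log (y / L) / L := by
      rw [← sub_div, le_div_iff₀ hL]
      exact h5
    have h7 : 0 ≤ 2 * (1 - Real.log 2) / L := by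
      have : 0 ≤ 1 - Real.log 2 := by linarith
      positivity
    linarith
  have hT4 : 4 ≤ T := by exact_mod_cast hTlow
  have hT1 : (1 : ℝ) ≤ T := by linarith
  -- powers of `n`
  have hrp : ∀ x : ℝ, (n : ℝ) ^ x = Real.exp (y * x) := by
    intro x
    rw [Real.rpow_def_of_pos hnpos]
  have hT8 : (T : ℝ) ^ 8 ≤ (n : ℝ) ^ (ε / 8) := by
    rw [hrp]
    have h1 : (T : ℝ) ^ 8 ≤ (4 / L * y) ^ 8 := pow_le_pow_left₀ (by linarith) hTup 8
    have h2 := Real.pow_div_factorial_le_exp (y * (ε / 8)) (by positivity) 9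
    refine h1.trans (le_trans ?_ h2)
    have h3 : ((Nat.factorial 9 : ℕ) : ℝ) = 362880 := by norm_num [Nat.factorial]
    rw [h3, le_div_iff₀ (by norm_num)]
    have h4 : (4 / L * y) ^ 8 * 362880 = A * (y ^ 8 * (ε / 8) ^ 9) := by
      rw [hA]
      field_simp
    rw [h4]
    have h5 : (y * (ε / 8)) ^ 9 = y * (y ^ 8 * (ε / 8) ^ 9) := by ring
    rw [h5]
    exact mul_le_mul_of_nonneg_right hyA (by positivity)
  have hT28 : (T : ℝ) ^ 2 ≤ (T : ℝ) ^ 8 := pow_le_pow_right₀ hT1 (by norm_num)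
  have hT18 : (T : ℝ) ≤ (T : ℝ) ^ 8 := by
    calc (T : ℝ) = (T : ℝ) ^ 1 := (pow_one _).symm
      _ ≤ (T : ℝ) ^ 8 := pow_le_pow_right₀ hT1 (by norm_num)
  have hn1' : (1 : ℝ) ≤ n := by linarith
  have hhalf : (n : ℝ) ^ (ε / 8) ≤ (n : ℝ) ^ ((1 : ℝ) / 2) :=
    Real.rpow_le_rpow_of_exponent_le hn1' (by linarith)
  have hsq : (n : ℝ) ^ ((1 : ℝ) / 2) ≤ n / 2 := by
    rw [← Real.sqrt_eq_rpow, Real.sqrt_le_left (by linarith)]
    have h0 : (n : ℝ) * 4 ≤ n * n := mul_le_mul_of_nonneg_left hn4' hnpos.le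
    have h1 : ((n : ℝ) / 2) ^ 2 = n * n / 4 := by ring
    rw [h1]
    linarith
  have hTn2 : (T : ℝ) ^ 2 ≤ n / 2 := by linarith
  have hTn' : (T : ℝ) ≤ n := by
    have : (T : ℝ) ≤ n / 2 := by linarith
    linarith
  have hTn : T ≤ n := by exact_mod_cast hTn'
  -- the main term
  have hdiff : a0 p n - T = 1 + th := by linarith
  have hmain := hn1 n T hnn1 (by
    change |(T : ℝ) - a0 p n| ≤ 2
    rw [abs_le]; constructor <;> linarith)
  have hmain' : |hv p n T - (1 + th) * y| ≤ ε / 16 * y := by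
    rw [← hdiff]; exact hmain
  obtain ⟨hm1, hm2⟩ := abs_le.1 hmain'
  have hup := Mk_le p n T hq hnpos
  have hlow := le_Mk p n T hq hnpos hTn (by omega)
  refine ⟨hT4, hT8, hTn, ?_, ?_, hup, hlow⟩
  · refine le_trans ?_ hlow
    have h1 : (1 : ℝ) / 2 ≤ 1 - (T : ℝ) ^ 2 / n := by
      have : (T : ℝ) ^ 2 / n ≤ 1 / 2 := by
        rw [div_le_iff₀ hnpos]; linarith
      linarith
    refine le_trans ?_ (mul_le_mul_of_nonneg_left h1 (Real.exp_pos _).le)
    rw [hrp]
    have h2 : Real.exp (hv p n T) * (1 / 2) = Real.exp (hv p n T - Real.log 2) := by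
      rw [Real.exp_sub, Real.exp_log (by norm_num)]; ring
    rw [h2]
    apply Real.exp_le_exp.2
    have h3 : 1 ≤ ε / 16 * y := by
      have h4 := mul_le_mul_of_nonneg_left hyE (show (0 : ℝ) ≤ ε / 16 by positivity)
      have h5 : ε / 16 * (16 / ε) = 1 := by field_simp
      linarith
    have h6 : y * (1 + th - ε / 8) = (1 + th) * y - 2 * (ε / 16 * y) := by ring
    rw [h6]
    linarith
  · refine hup.trans ?_
    rw [hrp]
    apply Real.exp_le_exp.2
    have h3 : 0 ≤ ε / 16 * y := by positivity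
    have h6 : y * (1 + th + ε / 8) = (1 + th) * y + 2 * (ε / 16 * y) := by ring
    rw [h6]
    linarith

end Pool.Agent.Helper42.UX
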